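import Pool.Agent.NQL.KFin

/-!
# MP_6ea1bd_co: the number of n-queens configurations up to a constant factor

There are real numbers `α` and `C` such that `(n log n - log Q(n))/n → α` and for all `n ≥ 1`
`|log Q(n) - n log n + α n - (1/2) log n| ≤ C`,
where `Q(n)` is the number of configurations of `n` non-attacking queens. So `E(n) = (1/2) log n + O(1)` and
`Q(n)` is of the exact order `√n (n e^(-α))^n`.
-/

namespace Pool.Agent.Results.MP_6ea1bd_co.HalfLog

open Pool.Agent.NQ Filter Topology

theorem result : ∃ α C : ℝ,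
    Tendsto (fun n : ℕ => (n * Real.log n - Real.log (QN n)) / n) atTop (𝓝 α) ∧
    ∀ n : ℕ, 1 ≤ n → |Real.log (QN n) - n * Real.log n + α * n - Real.log n / 2| ≤ C :=
  Pool.Agent.NQL.main

end Pool.Agent.Results.MP_6ea1bd_co.HalfLog
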